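import Pool.Agent.N328.CD.Defs
import Pool.Agent.H185C.NearLem

/-!
Project CD (helper328), part TREE (helper645): far edges outside the 2-factor connecting all its
circuits.
-/

set_option autoImplicit false
set_option linter.unusedSectionVars false
set_option linter.unusedVariables false

namespace Pool.Agent.N645.CD
open Finset Pool.Agent.H160R2.HF Pool.Agent.N328.LF Pool.Agent.N328.CD
open Pool.Agent.H185C (Near Conn IsPerm merge near_trans near_symm near_mono near_card)

variable {V E : Type} [Fintype V] [Fintype E] [DecidableEq V] [DecidableEq E]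

theorem far_symm {G : OrGraph V E} {r : ℕ} {a b : E} (h : Far G r a b) : Far G r b a :=
  ⟨fun h' => h.1 (near_symm G r _ _ h'), fun h' => h.2.2.1 (near_symm G r _ _ h'),
    fun h' => h.2.1 (near_symm G r _ _ h'), fun h' => h.2.2.2 (near_symm G r _ _ h')⟩

/-- the invariants: `p` labels the components of `(V, F ∪ S)` -/
structure Inv (G : OrGraph V E) (F : Finset E) (r K : ℕ) (S : Finset E) (p : V → V) : Prop where
  lab : ∀ e ∈ F ∪ S, p (G.t e) = p (G.h e)
  clo : ∀ X : Finset V, G.cut X ∩ (F ∪ S) = ∅ → ∀ u v, p u = p v → (u ∈ X ↔ v ∈ X)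
  cnt : S.card + (univ.image p).card ≤ K
  dis : S ∩ F = ∅
  far : ∀ a ∈ S, ∀ b ∈ S, a ≠ b → Far G r a b

theorem mem_cut {G : OrGraph V E} {X : Finset V} {e : E} :
    e ∈ G.cut X ↔ ¬ (G.t e ∈ X ↔ G.h e ∈ X) := by
  simp [OrGraph.cut]

/-- adding an edge between two components -/
theorem Inv.step {G : OrGraph V E} {F : Finset E} {r K : ℕ} {S : Finset E} {p : V → V}
    (h : Inv G F r K S p) (e : E) (heF : e ∉ F) (hep : p (G.t e) ≠ p (G.h e))
    (hf : ∀ b ∈ S, Far G r e b) : Inv G F r K (insert e S) (merge G p e) ∧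
      (univ.image (merge G p e)).card < (univ.image p).card := by
  have hc : (univ.image (merge G p e)).card < (univ.image p).card := by
    have h1 : univ.image (merge G p e) ⊆ (univ.image p).erase (p (G.t e)) := by
      intro x hx
      obtain ⟨v, -, rfl⟩ := mem_image.1 hx
      unfold merge
      rw [mem_erase]
      split_ifs with hv
      · exact ⟨fun h => hep h.symm, mem_image_of_mem _ (mem_univ _)⟩
      · exact ⟨hv, mem_image_of_mem _ (mem_univ _)⟩
    have h2 := card_le_card h1
    rw [card_erase_of_mem (mem_image_of_mem _ (mem_univ _))] at h2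
    have h4 : 0 < (univ.image p).card := card_pos.2 ⟨_, mem_image_of_mem _ (mem_univ (G.t e))⟩
    omega
  refine ⟨⟨?_, ?_, ?_, ?_, ?_⟩, hc⟩
  · intro e' he'
    rw [mem_union, mem_insert] at he'
    unfold merge
    rcases he' with h1 | rfl | h1
    · rw [h.lab e' (mem_union_left _ h1)]
    · rw [if_pos rfl, if_neg (fun h => hep h.symm)]
    · rw [h.lab e' (mem_union_right _ h1)]
  · intro X hX u v huv
    rw [eq_empty_iff_forall_notMem] at hX
    have h1 : G.cut X ∩ (F ∪ S) = ∅ := by
      rw [eq_empty_iff_forall_notMem]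
      intro x hx
      apply hX x
      rw [mem_inter, mem_union] at hx ⊢
      exact ⟨hx.1, hx.2.imp id (fun h => mem_insert_of_mem h)⟩
    have h2 := h.clo X h1
    have h3 : G.t e ∈ X ↔ G.h e ∈ X := by
      by_contra hc
      exact hX e (mem_inter.2 ⟨mem_cut.2 hc, mem_union_right _ (mem_insert_self _ _)⟩)
    unfold merge at huv
    split_ifs at huv with a b b
    · exact h2 u v (a.trans b.symm)
    · rw [h2 u _ a, h3, h2 _ v huv]
    · rw [h2 _ _ huv, ← h3, h2 _ _ b.symm]
    · exact h2 u v huv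
  · have h2 := card_insert_le e S
    have h3 := h.cnt
    omega
  · rw [insert_inter_of_notMem heF, h.dis]
  · intro a ha b hb hab
    rw [mem_insert] at ha hb
    rcases ha with rfl | ha <;> rcases hb with rfl | hb
    · exact absurd rfl hab
    · exact hf b hb
    · exact far_symm (hf a ha)
    · exact h.far a ha b hb hab

/-- the edge outside of the 2-factor at a vertex -/
theorem exists_match (G : OrGraph V E) (hc : G.Cubic) (F : Finset E) (hF : G.IsTwoFactor F) (v : V) :
    ∃ e, e ∉ F ∧ (G.t e = v ∨ G.h e = v) ∧ ∀ e', e' ∉ F → (G.t e' = v ∨ G.h e' = v) → e' = e := by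
  have h1 := Pool.Agent.H884R2.HFP.deg_compl G hc F hF v
  unfold OrGraph.deg at h1
  obtain ⟨A, hA⟩ : ∃ A, A = Fᶜ.filter (fun e => G.t e = v) := ⟨_, rfl⟩
  obtain ⟨B, hB⟩ : ∃ B, B = Fᶜ.filter (fun e => G.h e = v) := ⟨_, rfl⟩
  rw [← hA, ← hB] at h1
  rcases Nat.eq_zero_or_pos A.card with h0 | h0
  · rw [h0, zero_add, card_eq_one] at h1
    obtain ⟨e, he⟩ := h1
    rw [card_eq_zero] at h0
    have h2 : e ∈ B := by rw [he]; exact mem_singleton_self e
    rw [hB, mem_filter, mem_compl] at h2
    refine ⟨e, h2.1, Or.inr h2.2, fun e' he' h3 => ?_⟩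
    rcases h3 with h3 | h3
    · have : e' ∈ A := by rw [hA, mem_filter, mem_compl]; exact ⟨he', h3⟩
      rw [h0] at this
      exact absurd this (notMem_empty _)
    · have : e' ∈ B := by rw [hB, mem_filter, mem_compl]; exact ⟨he', h3⟩
      rw [he] at this
      exact mem_singleton.1 this
  · have h2 : A.card = 1 := by omega
    have h3 : B.card = 0 := by omega
    rw [card_eq_one] at h2
    rw [card_eq_zero] at h3
    obtain ⟨e, he⟩ := h2
    have h2 : e ∈ A := by rw [he]; exact mem_singleton_self e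
    rw [hA, mem_filter, mem_compl] at h2
    refine ⟨e, h2.1, Or.inl h2.2, fun e' he' h4 => ?_⟩
    rcases h4 with h4 | h4
    · have : e' ∈ A := by rw [hA, mem_filter, mem_compl]; exact ⟨he', h4⟩
      rw [he] at this
      exact mem_singleton.1 this
    · have : e' ∈ B := by rw [hB, mem_filter, mem_compl]; exact ⟨he', h4⟩
      rw [h3] at this
      exact absurd this (notMem_empty _)

/-- a labelling constant along the 2-factor is constant on the circuits -/
theorem lab_cyc {α : Type} {G : OrGraph V E} {F : Finset E} {π : Equiv.Perm V} {ε : V → E}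
    (hπ : IsPerm G F π ε) (p : V → α) (hp : ∀ e ∈ F, p (G.t e) = p (G.h e)) {x y : V}
    (h : π.SameCycle x y) : p x = p y := by
  have h1 : ∀ v, p (π v) = p v := by
    intro v
    have h2 := hp (ε v) (hπ.2.1 v)
    rcases hπ.2.2.2 v with ⟨h3, h4⟩ | ⟨h3, h4⟩
    · rw [h3, h4] at h2
      exact h2.symm
    · rw [h3, h4] at h2
      exact h2
  have h2 : ∀ (n : ℕ) (v : V), p ((π ^ n) v) = p v := by
    intro n
    induction n with
    | zero => intro v; simp
    | succ n ih =>
      intro v
      rw [pow_succ', Equiv.Perm.mul_apply, h1, ih]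
  obtain ⟨n, -, hn⟩ := h.exists_pow_eq'
  rw [← hn, h2]

theorem mem_circ {π : Equiv.Perm V} {x y : V} : y ∈ circ π x ↔ π.SameCycle x y := by
  unfold circ
  simp

theorem circ_eq {π : Equiv.Perm V} {x y : V} (h : π.SameCycle x y) : circ π x = circ π y := by
  ext z
  rw [mem_circ, mem_circ]
  exact ⟨fun h' => h.symm.trans h', fun h' => h.trans h'⟩

theorem cyc_edge {G : OrGraph V E} {F : Finset E} {π : Equiv.Perm V} {ε : V → E}
    (hπ : IsPerm G F π ε) {e : E} (he : e ∈ F) : π.SameCycle (G.t e) (G.h e) := by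
  obtain ⟨v, rfl⟩ := hπ.2.2.1 e he
  have h1 : π.SameCycle v (π v) := (Equiv.Perm.SameCycle.refl π v).apply_right
  rcases hπ.2.2.2 v with ⟨h3, h4⟩ | ⟨h3, h4⟩
  · rw [h3, h4]
    exact h1
  · rw [h3, h4]
    exact h1.symm

/-- stage 2: greedy -/
theorem stage2 (q K : ℕ) (hq : 1 ≤ q) (G : OrGraph V E) (hc : G.Cubic)
    (hexp : ∀ X : Finset V, 2 * X.card ≤ Fintype.card V → X.card ≤ q * (G.cut X).card)
    (F : Finset E) (π : Equiv.Perm V) (ε : V → E) (hπ : IsPerm G F π ε)
    (m : V → E) (hm2 : ∀ v e, e ∉ F → (G.t e = v ∨ G.h e = v) → e = m v)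
    (n : ℕ) : ∀ (S : Finset E) (p : V → V), Inv G F (6 * q) K S p → (univ.image p).card ≤ n →
      (∀ v, ∃ w, p w = p v ∧ q * (K * 4 ^ (6 * q + 2) + 1) ≤ (circ π w).card) →
      ∃ S : Finset E, S ∩ F = ∅ ∧ (∀ a ∈ S, ∀ b ∈ S, a ≠ b → Far G (6 * q) a b) ∧
        ∀ X : Finset V, X.Nonempty → Xᶜ.Nonempty → (G.cut X ∩ (F ∪ S)).Nonempty := by
  induction n with
  | zero =>
    intro S p h hn hl
    refine ⟨S, h.dis, h.far, fun X ⟨x, hx⟩ _ => ?_⟩
    have h4 : 0 < (univ.image p).card := card_pos.2 ⟨_, mem_image_of_mem _ (mem_univ x)⟩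
    omega
  | succ n ih =>
    intro S p h hn hl
    by_cases hcon : ∀ x y, p x = p y
    · refine ⟨S, h.dis, h.far, fun X ⟨x, hx⟩ ⟨y, hy⟩ => ?_⟩
      by_contra hne
      rw [not_nonempty_iff_eq_empty] at hne
      rw [mem_compl] at hy
      exact hy ((h.clo X hne x y (hcon x y)).1 hx)
    push Not at hcon
    obtain ⟨x, y, hxy⟩ := hcon
    obtain ⟨C, hC⟩ : ∃ C : V → Finset V, C = fun x => univ.filter (fun v => p v = p x) := ⟨_, rfl⟩
    have hmC : ∀ x v, v ∈ C x ↔ p v = p x := by
      intro x v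
      rw [hC]
      simp
    have hdis : Disjoint (C x) (C y) := by
      rw [disjoint_left]
      intro v h1 h2
      rw [hmC] at h1 h2
      exact hxy (h1.symm.trans h2)
    have hsum : (C x).card + (C y).card ≤ Fintype.card V := by
      rw [← card_union_of_disjoint hdis]
      exact card_le_univ _
    obtain ⟨z, hz⟩ : ∃ z, 2 * (C z).card ≤ Fintype.card V := by
      by_cases h1 : 2 * (C x).card ≤ Fintype.card V
      · exact ⟨x, h1⟩
      · exact ⟨y, by omega⟩
    -- the component contains a long circuit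
    obtain ⟨w, hw, hwl⟩ := hl z
    have hsub : circ π w ⊆ C z := by
      intro v hv
      rw [mem_circ] at hv
      rw [hmC, ← hw]
      exact (lab_cyc hπ p (fun e he => h.lab e (mem_union_left _ he)) hv).symm
    have h1 := (hwl.trans (card_le_card hsub)).trans (hexp _ hz)
    have h2 : K * 4 ^ (6 * q + 2) + 1 ≤ (G.cut (C z)).card :=
      Nat.le_of_mul_le_mul_left h1 (by omega)
    -- the blocked edges
    obtain ⟨N, hN⟩ : ∃ N : V → Finset V, N = fun u =>
        (letI := Classical.decPred (fun v => Near G (6 * q) u v)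
        univ.filter (fun v => Near G (6 * q) u v)) := ⟨_, rfl⟩
    have hmN : ∀ u v, v ∈ N u ↔ Near G (6 * q) u v := by
      intro u v
      rw [hN]
      simp
    have hNc : ∀ u, (N u).card ≤ 4 ^ (6 * q) := fun u =>
      near_card G hc (6 * q) u (N u) (fun v hv => (hmN u v).1 hv)
    obtain ⟨B, hB⟩ : ∃ B, B = (S.biUnion (fun b => N (G.t b) ∪ N (G.h b))).image m := ⟨_, rfl⟩
    have hBc : B.card ≤ S.card * (2 * 4 ^ (6 * q)) := by
      rw [hB]
      refine card_image_le.trans (card_biUnion_le.trans ?_)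
      rw [← smul_eq_mul, ← sum_const]
      refine sum_le_sum fun b _ => ?_
      refine (card_union_le _ _).trans ?_
      have h3 := hNc (G.t b)
      have h4 := hNc (G.h b)
      omega
    have hS : S.card ≤ K := by
      have := h.cnt
      omega
    have hlt : B.card < (G.cut (C z)).card := by
      have h3 : S.card * (2 * 4 ^ (6 * q)) ≤ K * 4 ^ (6 * q + 2) := by
        refine Nat.mul_le_mul hS ?_
        rw [pow_add]
        omega
      omega
    obtain ⟨e, he, heB⟩ := exists_mem_notMem_of_card_lt_card hlt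
    have hep : p (G.t e) ≠ p (G.h e) := by
      intro h3
      rw [mem_cut, hmC, hmC, h3] at he
      exact he Iff.rfl
    have heF : e ∉ F := fun h3 => hep (h.lab e (mem_union_left _ h3))
    have hfar : ∀ b ∈ S, Far G (6 * q) e b := by
      intro b hb
      have h3 : ∀ a, (G.t e = a ∨ G.h e = a) → ∀ c, (c = G.t b ∨ c = G.h b) →
          ¬ Near G (6 * q) a c := by
        intro a ha c hc' h4
        apply heB
        rw [hB, mem_image]
        refine ⟨a, ?_, (hm2 a e heF ha).symm⟩
        rw [mem_biUnion]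
        refine ⟨b, hb, ?_⟩
        rw [mem_union, hmN, hmN]
        rcases hc' with rfl | rfl
        · exact Or.inl (near_symm G _ _ _ h4)
        · exact Or.inr (near_symm G _ _ _ h4)
      exact ⟨h3 _ (Or.inl rfl) _ (Or.inl rfl), h3 _ (Or.inl rfl) _ (Or.inr rfl),
        h3 _ (Or.inr rfl) _ (Or.inl rfl), h3 _ (Or.inr rfl) _ (Or.inr rfl)⟩
    obtain ⟨h3, h4⟩ := h.step e heF hep hfar
    refine ih (insert e S) (merge G p e) h3 (by omega) ?_
    intro v
    obtain ⟨w', hw', hwl'⟩ := hl v
    refine ⟨w', ?_, hwl'⟩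
    unfold merge
    rw [hw']

/-- the start: the circuits -/
theorem start {K r : ℕ} {G : OrGraph V E} {F : Finset E} {π : Equiv.Perm V} {ε : V → E}
    (hπ : IsPerm G F π ε) (hK : (univ.image (circ π)).card ≤ K)
    (s : V → V) (hs1 : ∀ x, π.SameCycle x (s x)) (hs2 : ∀ x y, π.SameCycle x y → s x = s y) :
    Inv G F r K ∅ s := by
  refine ⟨?_, ?_, ?_, ?_, ?_⟩
  · intro e he
    rw [union_empty] at he
    exact hs2 _ _ (cyc_edge hπ he)
  · intro X hX u v huv
    rw [union_empty, eq_empty_iff_forall_notMem] at hX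
    have h1 : π.SameCycle u v := (hs1 u).trans (huv ▸ (hs1 v).symm)
    have h2 := lab_cyc hπ (fun v => (v ∈ X : Prop)) (fun e he => by
      have h3 := hX e
      rw [mem_inter, mem_cut] at h3
      by_contra h4
      exact h3 ⟨fun h5 => h4 (propext h5), he⟩) h1
    simpa using h2
  · rw [card_empty, zero_add]
    refine le_trans ?_ hK
    refine card_le_card_of_injOn (fun x => circ π x) ?_ ?_
    · intro x _
      simp
    · intro x hx y hy hxy
      rw [mem_coe, mem_image] at hx hy
      obtain ⟨a, -, rfl⟩ := hx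
      obtain ⟨b, -, rfl⟩ := hy
      have h1 : s b ∈ circ π (s b) := mem_circ.2 (Equiv.Perm.SameCycle.refl _ _)
      simp only at hxy
      rw [← hxy, mem_circ] at h1
      exact hs2 a b ((hs1 a).trans (h1.trans (hs1 b).symm))
  · rw [empty_inter]
  · intro a ha
    exact absurd ha (notMem_empty a)

/-- **CD/TREE.** -/
theorem tree (q K : ℕ) (hq : 1 ≤ q) (G : OrGraph V E) (hc : G.Cubic) (hl : ∀ e, G.t e ≠ G.h e)
    (hexp : ∀ X : Finset V, 2 * X.card ≤ Fintype.card V → X.card ≤ q * (G.cut X).card)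
    (F : Finset E) (hF : G.IsTwoFactor F) (π : Equiv.Perm V) (ε : V → E)
    (hπ : IsPerm G F π ε) (hK : (univ.image (circ π)).card ≤ K)
    (hA : ∀ e, e ∉ F → ¬ ((circ π (G.t e)).card < q * (K * 4 ^ (6 * q + 2) + 1) ∧
      (circ π (G.h e)).card < q * (K * 4 ^ (6 * q + 2) + 1)))
    (s : V → V) (hs1 : ∀ x, π.SameCycle x (s x)) (hs2 : ∀ x y, π.SameCycle x y → s x = s y)
    (hs3 : ∀ x y, ¬ π.SameCycle x y → ¬ Near G (6 * q + 2) (s x) (s y)) :
    ∃ S : Finset E, S ∩ F = ∅ ∧ (∀ a ∈ S, ∀ b ∈ S, a ≠ b → Far G (6 * q) a b) ∧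
      ∀ X : Finset V, X.Nonempty → Xᶜ.Nonempty → (G.cut X ∩ (F ∪ S)).Nonempty := by
  obtain ⟨L, hL⟩ : ∃ L, L = q * (K * 4 ^ (6 * q + 2) + 1) := ⟨_, rfl⟩
  choose m hm1 hm0 hm2 using exists_match G hc F hF
  have hlong : ∀ w, (circ π w).card < L → ∃ a, L ≤ (circ π a).card ∧
      ((G.t (m w) = w ∧ G.h (m w) = a) ∨ (G.t (m w) = a ∧ G.h (m w) = w)) := by
    intro w hw
    have h1 := hA (m w) (hm1 w)
    rw [← hL] at h1
    rcases hm0 w with h2 | h2
    · refine ⟨G.h (m w), ?_, Or.inl ⟨h2, rfl⟩⟩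
      by_contra h3
      exact h1 ⟨by rw [h2]; exact hw, by omega⟩
    · refine ⟨G.t (m w), ?_, Or.inr ⟨rfl, h2⟩⟩
      by_contra h3
      exact h1 ⟨by omega, by rw [h2]; exact hw⟩
  have hnear : ∀ v a, (a = G.t (m v) ∨ a = G.h (m v)) → Near G 1 v a := by
    intro v a ha
    rcases hm0 v with h2 | h2
    · rcases ha with rfl | rfl
      · exact Or.inl h2.symm
      · exact Or.inr ⟨m v, Or.inl ⟨h2.symm, rfl⟩⟩
    · rcases ha with rfl | rfl
      · exact Or.inr ⟨m v, Or.inr ⟨h2.symm, rfl⟩⟩
      · exact Or.inl h2.symm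
  have hst1 : ∀ W : Finset V, (∀ w ∈ W, s w = w ∧ (circ π w).card < L) →
      ∃ p, Inv G F (6 * q) K (W.image m) p := by
    intro W
    induction W using Finset.induction_on with
    | empty =>
      intro _
      rw [image_empty]
      exact ⟨s, start hπ hK s hs1 hs2⟩
    | insert x W hx ih =>
      intro hW
      obtain ⟨p, hp⟩ := ih (fun w hw => hW w (mem_insert_of_mem hw))
      rw [image_insert]
      have hx1 := hW x (mem_insert_self _ _)
      have hnc : ∀ w ∈ W, ¬ π.SameCycle x w := by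
        intro w hw h1
        have h2 := hs2 x w h1
        rw [hx1.1, (hW w (mem_insert_of_mem hw)).1] at h2
        exact hx (h2 ▸ hw)
      have hnl : ∀ a, L ≤ (circ π a).card → a ∉ circ π x := by
        intro a ha h1
        rw [mem_circ] at h1
        rw [← circ_eq h1] at ha
        omega
      refine ⟨_, (hp.step (m x) (hm1 x) ?_ ?_).1⟩
      · intro heq
        have h1 : ∀ u v, p u = p v → (u ∈ circ π x ↔ v ∈ circ π x) := by
          refine hp.clo (circ π x) ?_
          rw [eq_empty_iff_forall_notMem]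
          intro e he
          rw [mem_inter, mem_cut, mem_union, mem_image] at he
          obtain ⟨h1, h2 | ⟨w, hw, rfl⟩⟩ := he
          · apply h1
            rw [mem_circ, mem_circ]
            have h3 := cyc_edge hπ h2
            exact ⟨fun h => h.trans h3, fun h => h.trans h3.symm⟩
          · obtain ⟨a, ha, h2 | h2⟩ := hlong w (hW w (mem_insert_of_mem hw)).2
            · apply h1
              rw [h2.1, h2.2]
              exact ⟨fun h => absurd (mem_circ.1 h) (hnc w hw), fun h => absurd h (hnl a ha)⟩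
            · apply h1
              rw [h2.1, h2.2]
              exact ⟨fun h => absurd h (hnl a ha), fun h => absurd (mem_circ.1 h) (hnc w hw)⟩
        have h3 : x ∈ circ π x := mem_circ.2 (Equiv.Perm.SameCycle.refl _ _)
        obtain ⟨a, ha, h2 | h2⟩ := hlong x hx1.2
        · rw [h2.1, h2.2] at heq
          exact hnl a ha ((h1 _ _ heq).1 h3)
        · rw [h2.1, h2.2] at heq
          exact hnl a ha ((h1 _ _ heq).2 h3)
      · intro b hb
        rw [mem_image] at hb
        obtain ⟨w, hw, rfl⟩ := hb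
        have h1 : ∀ a c, (a = G.t (m x) ∨ a = G.h (m x)) → (c = G.t (m w) ∨ c = G.h (m w)) →
            ¬ Near G (6 * q) a c := by
          intro a c ha hc' h2
          have h3 := near_trans G _ _ _ _ _ (near_trans G _ _ _ _ _ (hnear x a ha) h2)
            (near_symm G _ _ _ (hnear w c hc'))
          have h4 := hs3 x w (hnc w hw)
          rw [hx1.1, (hW w (mem_insert_of_mem hw)).1] at h4
          apply h4
          have e1 : 1 + 6 * q + 1 = 6 * q + 2 := by ring
          rw [e1] at h3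
          exact h3
        exact ⟨h1 _ _ (Or.inl rfl) (Or.inl rfl), h1 _ _ (Or.inl rfl) (Or.inr rfl),
          h1 _ _ (Or.inr rfl) (Or.inl rfl), h1 _ _ (Or.inr rfl) (Or.inr rfl)⟩
  obtain ⟨W, hW⟩ : ∃ W : Finset V, W = univ.filter (fun w => s w = w ∧ (circ π w).card < L) :=
    ⟨_, rfl⟩
  have hmW : ∀ w, w ∈ W ↔ s w = w ∧ (circ π w).card < L := by
    intro w
    rw [hW]
    simp
  obtain ⟨p, hp⟩ := hst1 W (fun w hw => (hmW w).1 hw)
  refine stage2 q K hq G hc hexp F π ε hπ m hm2 (univ.image p).card (W.image m) p hp le_rfl ?_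
  rw [← hL]
  intro v
  by_cases hv : L ≤ (circ π v).card
  · exact ⟨v, rfl, hv⟩
  have h1 : s (s v) = s v := (hs2 v (s v) (hs1 v)).symm
  have h2 : (circ π (s v)).card < L := by
    rw [← circ_eq (hs1 v)]
    omega
  have h3 : p v = p (s v) :=
    lab_cyc hπ p (fun e he => hp.lab e (mem_union_left _ he)) (hs1 v)
  have h4 := hp.lab (m (s v)) (mem_union_right _ (mem_image_of_mem _ ((hmW _).2 ⟨h1, h2⟩)))
  obtain ⟨a, ha, h5 | h5⟩ := hlong (s v) h2
  · rw [h5.1, h5.2] at h4
    exact ⟨a, by rw [h3, h4], ha⟩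
  · rw [h5.1, h5.2] at h4
    exact ⟨a, by rw [h3, h4], ha⟩

end Pool.Agent.N645.CD
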